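import Mathlib

namespace Pool.Agent.H.MP_b41085_nt

def DU (N : ℝ) : ℝ := 3143+N*(N*(N*(N*(23464+N*(1680)))))

def psU (x y z : ℝ) : ℝ := ((z*((-536144)+z*((-167916)+z*((-74088)+z*(167916+z*((-167916)))))))+y*(((-536144)+z*(335832+
      z*((-1917748)+z*((-829200)+z*(167916)))))+y*(((-167916)+z*((-1917748)+z*((-2015328)+z*((-218208)))))+
      y*(((-74088)+z*((-829200)+z*((-218208))))+y*((167916+z*(167916))+y*((-167916)))))))+x*((((-335832)+
      z*(1699488+z*(167916+z*((-412208)+z*((-102516))))))+y*((1699488+z*(z*((-167916)+z*(618996))))+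
      y*((167916+z*((-167916)+z*((-335832))))+y*(((-412208)+z*(618996))+y*((-102516))))))+x*(((335832+
      z*(141064+z*(167916+z*(62556))))+y*((141064+z*((-318696)+z*((-215556))))+y*((167916+z*((-215556)))+
      y*(62556))))+x*(((335832+z*((-167916)+z*(167916)))+y*(((-167916)+z*(335832))+y*(167916)))+x*(((293692+
      z*(63780))+y*(63780))+x*((-161196))))))

def gaU (x y z : ℝ) : ℝ := 9 * DU (x+y+z+1) - (2 * psU x y z - psU y x z - psU z x y)

theorem gaU_sum (x y z : ℝ) : gaU x y z + gaU y x z + gaU z x y = 27 * DU (x+y+z+1) := by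
  unfold gaU psU DU; ring

theorem DU_pos (N : ℝ) (h : 0 < N) : 0 < DU N := by unfold DU; positivity

def QU (x y z : ℝ) : ℝ := DU (x+y+z) * ((x+y+z)^3+2*(x+y+z)^2+3*(x+y+z)+4) - (x^3 * gaU (x-1) y z + y^3 * gaU (y-1) x z + z^3 * gaU (z-1) x y)

theorem QU_12 (x y z : ℝ) : QU x y z = QU y x z := by unfold QU gaU psU DU; ring

theorem QU_23 (x y z : ℝ) : QU x y z = QU x z y := by unfold QU gaU psU DU; ring

theorem qU (k a b : ℝ) (_hk : 0 ≤ k) (_ha : 0 ≤ a) (_hb : 0 ≤ b) : 0 ≤ QU (k+a+b) (k+a) k := by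
  have h : QU (k+a+b) (k+a) k =
      ((12572+b*(9429+b*(6286)))+a*((18858+b*(25144+b*(9429+b*(b*(153384)))))+a*((25144+b*(28287+
      b*(563136+b*(460152+b*(b*(5040+b*(387324)))))))+a*((18858+b*(1126272+b*(306768+b*(224928+b*(41004+
      b*(2420388))))))+a*((563136+b*(b*(674784+b*(129420+b*(5385024)))))+a*((b*(674784+b*(197676+
      b*(5179140))))+a*((224928+b*(145908+b*(2008620)))+a*((41688+b*(241920))+a*(60480)))))))))+k*(((28287+
      b*(37716+b*(18858+b*(b*(306768)))))+a*((75432+b*(94290+b*(2252544+b*(613536+b*(463176)))))+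
      a*((94290+b*(6757632+b*(1393056+b*(1470588+b*(265248+b*(2562192))))))+a*((4505088+b*(1559040+
      b*(1250592+b*(530496+b*(10415088)))))+a*((779520+b*(405300+b*(265248+b*(13642560))))+a*((162120+
      b*(b*(6621264)))+a*((b*(1164240))+a*(332640))))))))+k*(((56574+b*(75432+b*(2252544+b*(b*(463176)))))+
      a*((150864+b*(12388992+b*(3719016+b*(1209492+b*(625320+b*(136080))))))+a*((12388992+b*(11157048+
      b*(1209492+b*(1875960+b*(4501008)))))+a*((7438032+b*(b*(1250640+b*(9364896))))+a*((b*(b*(6270048)))+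
      a*((b*(1905120))+a*(635040)))))))+k*(((75432+b*(6757632+b*(2479344+b*(188760+b*(416880+b*(90720))))))+
      a*((13515264+b*(16409904+b*(984228+b*(2084400+b*(529200)))))+a*((16409904+b*(1820124+b*(2501280+
      b*(1300320))))+a*((1213416+b*(833760+b*(1723680)))+a*((416880+b*(1285200))+a*(514080))))))+
      k*(((5068224+b*(6965280+b*(350544+b*(625320+b*(151200)))))+a*((13930560+b*(2350704+b*(1563300+
      b*(302400))))+a*((2350704+b*(937980+b*(453600)))+a*((625320+b*(302400))+a*(151200)))))+k*(((4179168+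
      b*(800064+b*(250128)))+a*((1600128+b*(250128))+a*(250128)))+k*(400032)))))) := by
    unfold QU gaU psU DU; ring
  rw [h]; positivity

def DL (N : ℝ) : ℝ := N*(N*(3776412+N*(N*(N*(843624)))))

def psL (x y z : ℝ) : ℝ := ((z*((-54651410)+z*(130472546+z*(53666470+z*(53666470+z*((-53666470)))))))+y*(((-54651410)+
      z*(107332940+z*(53666470+z*(75226760+z*(53666470)))))+y*((130472546+z*(53666470+z*(107332940+
      z*(139973092))))+y*((53666470+z*(75226760+z*(139973092)))+y*((53666470+z*(53666470))+y*((-53666470)))))))+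
      x*((((-107332940)+z*((-53666470)+z*((-26212508)+z*((-53666470)+z*(127806946)))))+y*(((-53666470)+
      z*(z*((-53666470)+z*(53666470))))+y*(((-26212508)+z*((-53666470)+z*((-107332940))))+y*(((-53666470)+
      z*(53666470))+y*(127806946)))))+x*(((107332940+z*((-47203442)+z*((-45384010)+z*((-4936964)))))+
      y*(((-47203442)+z*((-267713254)+z*((-72964262))))+y*(((-45384010)+z*((-72964262)))+y*((-4936964)))))+
      x*(((34880878+z*((-10488610)+z*(53666470)))+y*(((-10488610)+z*((-32100470)))+y*(53666470)))+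
      x*(((36373528+z*(78715966))+y*(78715966))+x*((-56619604))))))

def gaL (x y z : ℝ) : ℝ := 9 * DL (x+y+z+1) + (2 * psL x y z - psL y x z - psL z x y)

theorem gaL_sum (x y z : ℝ) : gaL x y z + gaL y x z + gaL z x y = 27 * DL (x+y+z+1) := by
  unfold gaL psL DL; ring

theorem DL_pos (N : ℝ) (h : 0 < N) : 0 < DL N := by unfold DL; positivity

def QL (x y z : ℝ) : ℝ := (x^3 * gaL (x-1) y z + y^3 * gaL (y-1) x z + z^3 * gaL (z-1) x y) - DL (x+y+z) * ((x+y+z)^3+2*(x+y+z)^2+2*(x+y+z))

theorem QL_12 (x y z : ℝ) : QL x y z = QL y x z := by unfold QL gaL psL DL; ring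

theorem QL_23 (x y z : ℝ) : QL x y z = QL x z y := by unfold QL gaL psL DL; ring

theorem qL0 (k a b : ℝ) (_hk : 0 ≤ k) (_ha : 0 ≤ a) (_hb : 0 ≤ b) : 0 ≤ QL (k+a+0) (k+a) k := by
  have h : QL (k+a+0) (k+a) k =
      (a*(a*(a*((75528240)+a*((66375072)+a*(3599064))))))+k*((a*(a*((135950832)+a*((244442160)+a*((221213664)+
      a*((84366504)+a*((72688068)+a*(1688148))))))))+k*((a*(a*((153808272)+a*((528754248)+a*((345907152)+
      a*((202044348)+a*(53151012)))))))+k*((a*(a*((259332660)+a*((221518224)+a*((122614488)+a*(118953684))))))+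
      k*(a*(a*(a*(a*(68333544)))))))) := by
    unfold QL gaL psL DL; ring
  rw [h]; positivity

theorem qL1 (k a b : ℝ) (_hk : 0 ≤ k) (_ha : 0 ≤ a) (_hb : 0 ≤ b) : 0 ≤ QL (k+a+(b+1)) (k+a) k := by
  have h : QL (k+a+(b+1)) (k+a) k =
      ((18480144+b*(24881364+b*(b*(56995752+b*(140070564+b*(93942468+b*(16426152+b*(b*(842724)))))))))+
      a*((83066346+b*(154484532+b*(282540474+b*(643051116+b*(705284334+b*(351467028+b*(92025918+b*(13914396))))))))+
      a*((97436070+b*(315435078+b*(1050517440+b*(1829094480+b*(1492894962+b*(594724914+b*(98406000)))))))+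
      a*((30275844+b*(b*(748000800+b*(1363383576+b*(841776876+b*(181141704))))))+a*((b*(b*(329089968+
      b*(383681988+b*(120967092)))))+a*((b*(29277360+b*(69351912+b*(36475488))))+a*(12158496+b*(24316992+
      b*(12158496)))))))))+k*(((141251328+b*(308969064+b*(394093692+b*(725819976+b*(940856328+b*(604377144+
      b*(184051836+b*(21087000))))))))+a*((510979356+b*(1641594276+b*(3330743832+b*(4640181948+b*(3615659280+
      b*(1355701968+b*(180095724)))))))+a*((751816332+b*(2068085610+b*(4375838340+b*(5057139708+b*(2546442576+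
      b*(412921098))))))+a*((920618802+b*(1942655400+b*(2572519428+b*(1579351896+b*(273311226)))))+
      a*((856903590+b*(1060463592+b*(424773666)))+a*((308339226+b*(229881240+b*(5908518)))+a*((78596586+
      b*(5908518))+a*(1688148))))))))+k*(((356494824+b*(1247500584+b*(2242013868+b*(2758469292+b*(2104716420+
      b*(803546460+b*(106291224)))))))+a*((1095964416+b*(3916720458+b*(6949108692+b*(6928549812+b*(3350641572+
      b*(550444410))))))+a*((2094724764+b*(5730116256+b*(7300578708+b*(4381343244+b*(869964300)))))+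
      a*((2850490620+b*(4643849232+b*(3014303652+b*(692190792))))+a*((1329990948+b*(1463056722+b*(478972926)))+
      a*((361497384+b*(159453036))+a*(53151012)))))))+k*(((314809416+b*(1116471060+b*(1874269836+
      b*(1812744648+b*(894516948+b*(154380492))))))+a*((694902618+b*(2420938188+b*(3539119500+b*(2335702248+
      b*(522618318)))))+a*((1660502304+b*(3171110796+b*(2470989996+b*(701048844))))+a*((1132369236+
      b*(1576473048+b*(665622036)))+a*((419998698+b*(297384210))+a*(118953684))))))+k*((68333544+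
      b*(273334176+b*(410001264+b*(273334176+b*(68333544)))))+a*((136667088+b*(410001264+b*(410001264+
      b*(136667088))))+a*((205000632+b*(410001264+b*(205000632)))+a*((136667088+b*(136667088))+a*(68333544)))))))) := by
    unfold QL gaL psL DL; ring
  rw [h]; positivity

theorem symnn (Q : ℝ → ℝ → ℝ → ℝ) (h12 : ∀ x y z, Q x y z = Q y x z) (h23 : ∀ x y z, Q x y z = Q x z y)
    (h : ∀ i j k : ℕ, k ≤ j → j ≤ i → 0 ≤ Q i j k) (i j k : ℕ) : 0 ≤ Q i j k := by
  rcases le_total i j with a | a <;> rcases le_total j k with b | b <;> rcases le_total i k with c | c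
  · rw [h12, h23, h12]; exact h _ _ _ a b
  · rw [h12, h23, h12]; exact h _ _ _ a b
  · rw [h12, h23]; exact h _ _ _ c b
  · rw [h12]; exact h _ _ _ c a
  · rw [h23, h12]; exact h _ _ _ a c
  · rw [h23]; exact h _ _ _ b c
  · exact h _ _ _ b a
  · exact h _ _ _ b a

theorem QU_nn (i j k : ℕ) : 0 ≤ QU i j k := by
  refine symnn QU QU_12 QU_23 (fun i j k h1 h2 => ?_) i j k
  obtain ⟨a, rfl⟩ := Nat.exists_eq_add_of_le h1
  obtain ⟨b, rfl⟩ := Nat.exists_eq_add_of_le h2
  push_cast
  exact qU k a b (Nat.cast_nonneg k) (Nat.cast_nonneg a) (Nat.cast_nonneg b)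

theorem QL_nn (i j k : ℕ) : 0 ≤ QL i j k := by
  refine symnn QL QL_12 QL_23 (fun i j k h1 h2 => ?_) i j k
  obtain ⟨a, rfl⟩ := Nat.exists_eq_add_of_le h1
  obtain ⟨b, rfl⟩ := Nat.exists_eq_add_of_le h2
  rcases b with _ | b <;> push_cast
  · simpa using qL0 k a 0 (Nat.cast_nonneg k) (Nat.cast_nonneg a) le_rfl
  · exact qL1 k a b (Nat.cast_nonneg k) (Nat.cast_nonneg a) (Nat.cast_nonneg b)

end Pool.Agent.H.MP_b41085_nt
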