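import Pool.Agent.H.MP_b41085_nt.A

namespace Pool.Agent.H.MP_b41085_nt
open Finset

noncomputable def w (i : ℕ) : ℝ := ((i.factorial : ℝ)^3)⁻¹

theorem w_pos (i : ℕ) : 0 < w i := by
  have : (0:ℝ) < i.factorial := by exact_mod_cast i.factorial_pos
  unfold w; positivity

theorem w_succ (i : ℕ) : w (i+1) * ((i:ℝ)+1)^3 = w i := by
  have : (0:ℝ) < i.factorial := by exact_mod_cast i.factorial_pos
  unfold w; rw [Nat.factorial_succ]; push_cast; field_simp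

noncomputable def E (n : ℕ) (f : ℝ → ℝ → ℝ → ℝ) : ℝ :=
  ∑ p ∈ antidiagonal n, ∑ q ∈ antidiagonal p.1, w q.1 * w q.2 * w p.2 * f q.1 q.2 p.2

theorem E12 (n : ℕ) (f : ℝ → ℝ → ℝ → ℝ) : E n f = E n (fun x y z => f y x z) := by
  unfold E
  refine Finset.sum_congr rfl fun p _ => ?_
  rw [← Finset.Nat.sum_antidiagonal_swap]
  refine Finset.sum_congr rfl fun q _ => ?_
  simp only [Prod.fst_swap, Prod.snd_swap]; ring

theorem E23 (n : ℕ) (f : ℝ → ℝ → ℝ → ℝ) : E n f = E n (fun x y z => f x z y) := by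
  unfold E
  rw [Finset.sum_sigma', Finset.sum_sigma']
  refine Finset.sum_nbij' (fun a => ⟨(a.2.1 + a.1.2, a.2.2), (a.2.1, a.1.2)⟩)
    (fun a => ⟨(a.2.1 + a.1.2, a.2.2), (a.2.1, a.1.2)⟩) ?_ ?_ ?_ ?_ ?_
  · rintro ⟨⟨a, b⟩, ⟨c, d⟩⟩ h
    simp only [Finset.mem_sigma, HasAntidiagonal.mem_antidiagonal] at h ⊢
    exact ⟨by omega, trivial⟩
  · rintro ⟨⟨a, b⟩, ⟨c, d⟩⟩ h
    simp only [Finset.mem_sigma, HasAntidiagonal.mem_antidiagonal] at h ⊢
    exact ⟨by omega, trivial⟩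
  · rintro ⟨⟨a, b⟩, ⟨c, d⟩⟩ h
    simp only [Finset.mem_sigma, HasAntidiagonal.mem_antidiagonal] at h
    obtain ⟨h1, rfl⟩ := h
    rfl
  · rintro ⟨⟨a, b⟩, ⟨c, d⟩⟩ h
    simp only [Finset.mem_sigma, HasAntidiagonal.mem_antidiagonal] at h
    obtain ⟨h1, rfl⟩ := h
    rfl
  · rintro ⟨⟨a, b⟩, ⟨c, d⟩⟩ _
    simp only; ring

theorem low3 (n : ℕ) (g : ℝ → ℝ → ℝ → ℝ) : E (n+1) (fun x y z => z^3 * g x y (z-1)) = E n g := by
  unfold E
  rw [Finset.Nat.sum_antidiagonal_succ']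
  simp only [Nat.cast_zero, ne_eq, OfNat.ofNat_ne_zero, not_false_eq_true, zero_pow, zero_mul, mul_zero,
    Finset.sum_const_zero, zero_add]
  refine Finset.sum_congr rfl fun p _ => Finset.sum_congr rfl fun q _ => ?_
  push_cast
  rw [add_sub_cancel_right, ← w_succ p.2]; ring

theorem low2 (n : ℕ) (g : ℝ → ℝ → ℝ → ℝ) : E (n+1) (fun x y z => y^3 * g x (y-1) z) = E n g := by
  rw [E23, E23 n g, ← low3 n]

theorem low1 (n : ℕ) (g : ℝ → ℝ → ℝ → ℝ) : E (n+1) (fun x y z => x^3 * g (x-1) y z) = E n g := by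
  rw [E12, E12 n g, ← low2 n]

theorem E_add (n : ℕ) (f g : ℝ → ℝ → ℝ → ℝ) :
    E n (fun x y z => f x y z + g x y z) = E n f + E n g := by
  unfold E; simp only [mul_add, Finset.sum_add_distrib]

theorem E_mono (n : ℕ) (f g : ℝ → ℝ → ℝ → ℝ)
    (h : ∀ i j k : ℕ, (i:ℝ) + j + k = n → f i j k ≤ g i j k) : E n f ≤ E n g := by
  unfold E
  refine Finset.sum_le_sum fun p hp => Finset.sum_le_sum fun q hq => ?_
  have h1 := HasAntidiagonal.mem_antidiagonal.1 hp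
  have h2 := HasAntidiagonal.mem_antidiagonal.1 hq
  refine mul_le_mul_of_nonneg_left (h _ _ _ ?_) (mul_pos (mul_pos (w_pos _) (w_pos _)) (w_pos _)).le
  exact_mod_cast (show q.1 + q.2 + p.2 = n by omega)

noncomputable def e (n : ℕ) : ℝ := E n (fun _ _ _ => 1)

theorem E_c (n : ℕ) (c : ℝ) : E n (fun _ _ _ => c) = c * e n := by
  unfold e E; simp only [Finset.mul_sum]
  refine Finset.sum_congr rfl fun p _ => Finset.sum_congr rfl fun q _ => by ring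

theorem e_pos (n : ℕ) : 0 < e n := by
  unfold e E
  refine Finset.sum_pos (fun p _ => Finset.sum_pos (fun q _ => ?_) ⟨(p.1, 0), by simp⟩) ⟨(n, 0), by simp⟩
  exact mul_pos (mul_pos (mul_pos (w_pos _) (w_pos _)) (w_pos _)) one_pos

theorem stein (n : ℕ) (ga : ℝ → ℝ → ℝ → ℝ) (A : ℝ → ℝ)
    (h : ∀ x y z, ga x y z + ga y x z + ga z x y = A (x+y+z+1)) :
    E (n+1) (fun x y z => x^3 * ga (x-1) y z + y^3 * ga (y-1) x z + z^3 * ga (z-1) x y) = A (n+1) * e n := by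
  rw [E_add, E_add, low1 n ga, low2 n (fun x y z => ga y x z), low3 n (fun x y z => ga z x y),
    ← E_add, ← E_add, ← E_c]
  refine le_antisymm (E_mono _ _ _ fun i j k hh => ?_) (E_mono _ _ _ fun i j k hh => ?_) <;>
    rw [h, hh]

theorem upper (n : ℕ) : 27 * e n ≤ (((n:ℝ)+1)^3 + 2*(n+1)^2 + 3*(n+1) + 4) * e (n+1) := by
  have h1 := stein n gaU (fun N => 27 * DU N) gaU_sum
  have h2 := E_mono (n+1) (fun x y z => x^3 * gaU (x-1) y z + y^3 * gaU (y-1) x z + z^3 * gaU (z-1) x y)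
    (fun _ _ _ => DU (n+1) * (((n:ℝ)+1)^3 + 2*(n+1)^2 + 3*(n+1) + 4)) (fun i j k hh => by
      have := QU_nn i j k
      unfold QU at this
      rw [hh] at this; push_cast at this
      linarith)
  rw [h1, E_c] at h2
  have hD := DU_pos ((n:ℝ)+1) (by positivity)
  refine le_of_mul_le_mul_left ?_ hD
  linarith

theorem lower (n : ℕ) : (((n:ℝ)+1)^3 + 2*(n+1)^2 + 2*(n+1)) * e (n+1) ≤ 27 * e n := by
  have h1 := stein n gaL (fun N => 27 * DL N) gaL_sum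
  have h2 := E_mono (n+1) (fun _ _ _ => DL (n+1) * (((n:ℝ)+1)^3 + 2*(n+1)^2 + 2*(n+1)))
    (fun x y z => x^3 * gaL (x-1) y z + y^3 * gaL (y-1) x z + z^3 * gaL (z-1) x y) (fun i j k hh => by
      have := QL_nn i j k
      unfold QL at this
      rw [hh] at this; push_cast at this
      linarith)
  rw [h1, E_c] at h2
  have hD := DL_pos ((n:ℝ)+1) (by positivity)
  refine le_of_mul_le_mul_left ?_ hD
  linarith

noncomputable def S (n : ℕ) : ℝ :=
  ∑ i ∈ range (n+1), ∑ j ∈ range (n-i+1),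
    ((n.factorial : ℝ) / ((i.factorial : ℝ) * (j.factorial : ℝ) * ((n-i-j).factorial : ℝ)))^3

theorem S_eq (n : ℕ) : S n = (n.factorial : ℝ)^3 * e n := by
  unfold S e E
  rw [← Finset.Nat.sum_antidiagonal_swap, Finset.Nat.sum_antidiagonal_eq_sum_range_succ_mk, Finset.mul_sum]
  refine Finset.sum_congr rfl fun i _ => ?_
  simp only [Prod.fst_swap, Prod.snd_swap]
  rw [Finset.Nat.sum_antidiagonal_eq_sum_range_succ_mk, Finset.mul_sum]
  refine Finset.sum_congr rfl fun j _ => ?_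
  unfold w
  simp only [mul_pow, div_eq_mul_inv, mul_inv]; ring

theorem S_pos (n : ℕ) : 0 < S n := by
  have : (0:ℝ) < n.factorial := by exact_mod_cast n.factorial_pos
  rw [S_eq]; exact mul_pos (by positivity) (e_pos n)

theorem a_ge (n : ℕ) : 27 * ((n:ℝ)+1)^3 / (((n:ℝ)+1)^3 + 2*(n+1)^2 + 3*(n+1) + 4) ≤ S (n+1) / S n := by
  rw [div_le_div_iff₀ (by positivity) (S_pos n), S_eq, S_eq, Nat.factorial_succ]
  push_cast
  have : (0:ℝ) ≤ ((n:ℝ)+1)^3 * (n.factorial : ℝ)^3 := by positivity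
  nlinarith [mul_le_mul_of_nonneg_left (upper n) this]

theorem a_le (n : ℕ) : S (n+1) / S n ≤ 27 * ((n:ℝ)+1)^3 / (((n:ℝ)+1)^3 + 2*(n+1)^2 + 2*(n+1)) := by
  rw [div_le_div_iff₀ (S_pos n) (by positivity), S_eq, S_eq, Nat.factorial_succ]
  push_cast
  have : (0:ℝ) ≤ ((n:ℝ)+1)^3 * (n.factorial : ℝ)^3 := by positivity
  nlinarith [mul_le_mul_of_nonneg_left (lower n) this]

end Pool.Agent.H.MP_b41085_nt
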