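import Pool.Agent.H.MP_b41085_nt.B

namespace Pool.Agent.H.MP_b41085_nt
open Finset Filter Topology

noncomputable def a (n : ℕ) : ℝ := S (n+1) / S n

theorem a_pos (n : ℕ) : 0 < a n := div_pos (S_pos _) (S_pos _)

theorem a_lt (n : ℕ) : a n < a (n+1) := by
  refine lt_of_le_of_lt (a_le n) (lt_of_lt_of_le ?_ (a_ge (n+1)))
  have hn : (0:ℝ) ≤ n := Nat.cast_nonneg n
  rw [div_lt_div_iff₀ (by positivity) (by positivity)]
  push_cast
  rw [← sub_pos]
  ring_nf
  positivity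

theorem a_mono : StrictMono a := strictMono_nat_of_lt_succ a_lt

theorem a_tend : Tendsto a atTop (𝓝 27) := by
  have h0 : Tendsto (fun n : ℕ => 1 / ((n:ℝ)+1)) atTop (𝓝 0) := tendsto_one_div_add_atTop_nhds_zero_nat
  have h1 : Tendsto (fun n : ℕ => 27 / (1 + 2 * (1 / ((n:ℝ)+1)) + 3 * (1 / ((n:ℝ)+1))^2 + 4 * (1 / ((n:ℝ)+1))^3))
      atTop (𝓝 (27 / (1 + 2 * 0 + 3 * 0^2 + 4 * 0^3))) :=
    tendsto_const_nhds.div (((tendsto_const_nhds.add (h0.const_mul 2)).add ((h0.pow 2).const_mul 3)).add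
      ((h0.pow 3).const_mul 4)) (by norm_num)
  norm_num only at h1
  refine tendsto_of_tendsto_of_tendsto_of_le_of_le h1 tendsto_const_nhds (fun n => ?_) (fun n => ?_)
  · refine le_trans (le_of_eq ?_) (a_ge n)
    have hn : (0:ℝ) ≤ n := Nat.cast_nonneg n
    field_simp
  · refine le_trans (a_le n) ?_
    have hn : (0:ℝ) ≤ n := Nat.cast_nonneg n
    rw [div_le_iff₀ (by positivity), ← sub_nonneg]
    ring_nf
    positivity

noncomputable def L (n : ℕ) : ℝ := Real.log (S n)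

theorem S0 : S 0 = 1 := by simp [S]
theorem S1 : S 1 = 3 := by simp [S, Finset.sum_range_succ]; norm_num
theorem S2 : S 2 = 27 := by simp [S, Finset.sum_range_succ, Nat.factorial]; norm_num
theorem S3 : S 3 = 381 := by simp [S, Finset.sum_range_succ, Nat.factorial]; norm_num
theorem S4 : S 4 = 6219 := by simp [S, Finset.sum_range_succ, Nat.factorial]; norm_num

theorem log_a (n : ℕ) : Real.log (a n) = L (n+1) - L n := by
  unfold a L; rw [Real.log_div (S_pos _).ne' (S_pos _).ne']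

theorem dl_nn (n : ℕ) : 0 ≤ L (n+2) - 2 * L (n+1) + L n := by
  have := Real.log_le_log (a_pos n) (a_lt n).le
  rw [log_a, log_a] at this
  linarith

theorem dl_le (n : ℕ) : ((n:ℝ)+1) * n * (L (n+2) - 2 * L (n+1) + L n) ≤ 4 := by
  have hn : (0:ℝ) ≤ n := Nat.cast_nonneg n
  have h1 : L (n+2) - 2 * L (n+1) + L n ≤ a (n+1) / a n - 1 := by
    have := Real.log_le_sub_one_of_pos (div_pos (a_pos (n+1)) (a_pos n))
    rw [Real.log_div (a_pos _).ne' (a_pos _).ne', log_a, log_a] at this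
    linarith
  have h2 : a (n+1) / a n ≤ (27 * ((n:ℝ)+2)^3 / (((n:ℝ)+2)^3 + 2*(n+2)^2 + 2*(n+2))) /
      (27 * ((n:ℝ)+1)^3 / (((n:ℝ)+1)^3 + 2*(n+1)^2 + 3*(n+1) + 4)) := by
    refine div_le_div₀ (by positivity) ?_ (by positivity) (a_ge n)
    have := a_le (n+1)
    push_cast at this
    rw [show (n:ℝ)+1+1 = n+2 by ring] at this
    exact this
  have h3 : ((n:ℝ)+1) * n * ((27 * ((n:ℝ)+2)^3 / (((n:ℝ)+2)^3 + 2*(n+2)^2 + 2*(n+2))) /
      (27 * ((n:ℝ)+1)^3 / (((n:ℝ)+1)^3 + 2*(n+1)^2 + 3*(n+1) + 4)) - 1) ≤ 4 := by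
    rw [← sub_nonneg]
    have : 4 - ((n:ℝ)+1) * n * ((27 * ((n:ℝ)+2)^3 / (((n:ℝ)+2)^3 + 2*(n+2)^2 + 2*(n+2))) /
      (27 * ((n:ℝ)+1)^3 / (((n:ℝ)+1)^3 + 2*(n+1)^2 + 3*(n+1) + 4)) - 1) =
        (40*(n:ℝ)^0 + 74*(n:ℝ)^1 + 48*(n:ℝ)^2 + 11*(n:ℝ)^3 + 1*(n:ℝ)^4) / (((n:ℝ)+1)^2 * ((n+2)^2 + 2*(n+2) + 2)) := by
      field_simp
      ring
    rw [this]; positivity
  exact le_trans (mul_le_mul_of_nonneg_left (by linarith) (by positivity)) h3

theorem W4 : 2 < 3 * L 4 - 4 * L 3 := by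
  unfold L
  rw [S4, S3]
  have h : (2:ℝ) < Real.log (6219^3 / 381^4) := by
    rw [Real.lt_log_iff_exp_lt (by positivity)]
    have h1 := Real.exp_one_lt_d9
    have h2 : Real.exp 2 = Real.exp 1 * Real.exp 1 := by rw [← Real.exp_add]; norm_num
    have h3 := Real.exp_pos 1
    rw [h2]
    nlinarith
  rw [Real.log_div (by positivity) (by positivity), Real.log_pow, Real.log_pow] at h
  exact_mod_cast h

theorem Wge (n : ℕ) : 2 < ((n:ℝ)+3) * L (n+4) - (n+4) * L (n+3) := by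
  induction n with
  | zero => simpa using W4
  | succ n ih =>
    have := dl_nn (n+3)
    have hn : (0:ℝ) ≤ n := Nat.cast_nonneg n
    push_cast
    rw [show n+1+4 = n+3+2 by ring, show n+1+3 = n+3+1 by ring]
    rw [show n+4 = n+3+1 by ring] at ih
    nlinarith [mul_nonneg (show (0:ℝ) ≤ n+4 by positivity) this]

theorem conc (n : ℕ) (hn : 1 ≤ n) :
    ((n:ℝ)+1) * n * L (n+2) + (n+1) * (n+2) * L n < 2 * n * (n+2) * L (n+1) := by
  rcases n with _ | _ | _ | n
  · omega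
  · have h : Real.log (381^2 * 3^6) < Real.log (27^6) := Real.log_lt_log (by positivity) (by norm_num)
    rw [Real.log_mul (by positivity) (by positivity), Real.log_pow, Real.log_pow, Real.log_pow] at h
    simp only [L, zero_add, Nat.reduceAdd, S1, S2, S3]
    push_cast at h ⊢
    linarith
  · have h : Real.log (6219^6 * 27^12) < Real.log (381^16) := Real.log_lt_log (by positivity) (by norm_num)
    rw [Real.log_mul (by positivity) (by positivity), Real.log_pow, Real.log_pow, Real.log_pow] at h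
    simp only [L, zero_add, Nat.reduceAdd, S4, S2, S3]
    push_cast at h ⊢
    linarith
  · have h1 := Wge n
    have h2 := dl_le (n+3)
    push_cast at h2 ⊢
    rw [show n+4 = n+3+1 by ring] at h1
    rw [show n+1+1+1 = n+3 by ring]
    nlinarith

noncomputable def b (n : ℕ) : ℝ := S (n+1) ^ ((1:ℝ) / ((n:ℝ)+1)) / S n ^ ((1:ℝ) / (n:ℝ))

theorem b_eq (n : ℕ) : b n = Real.exp (L (n+1) / ((n:ℝ)+1) - L n / n) := by
  unfold b L
  rw [Real.rpow_def_of_pos (S_pos _), Real.rpow_def_of_pos (S_pos _), Real.exp_sub]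
  simp only [mul_one_div]

theorem b_lt (n : ℕ) (hn : 1 ≤ n) : b (n+1) < b n := by
  rw [b_eq, b_eq, Real.exp_lt_exp]
  have h := conc n hn
  have hn' : (0:ℝ) < n := by exact_mod_cast hn
  push_cast
  rw [← sub_pos]
  have : L (n+1) / ((n:ℝ)+1) - L n / n - (L (n+1+1) / ((n:ℝ)+1+1) - L (n+1) / ((n:ℝ)+1)) =
      (2 * n * (n+2) * L (n+1) - (((n:ℝ)+1) * n * L (n+2) + (n+1) * (n+2) * L n)) / (n * (n+1) * (n+2)) := by
    field_simp
    ring
  rw [this]
  exact div_pos (by linarith) (by positivity)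

theorem b_tend : Tendsto b atTop (𝓝 1) := by
  have h1 : Tendsto (fun n => Real.log (a n)) atTop (𝓝 (Real.log 27)) := a_tend.log (by norm_num)
  have h2 := h1.cesaro
  have h3 : (fun n : ℕ => (n:ℝ)⁻¹ * ∑ i ∈ range n, Real.log (a i)) = fun n : ℕ => L n / n := by
    funext n
    simp only [log_a]
    rw [Finset.sum_range_sub, show L 0 = 0 by simp [L, S0]]
    ring
  rw [h3] at h2
  have h4 := (tendsto_add_atTop_iff_nat 1).2 h2
  have h5 := (h4.sub h2).rexp
  rw [sub_self, Real.exp_zero] at h5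
  refine h5.congr fun n => ?_
  rw [b_eq]; push_cast; rfl

end Pool.Agent.H.MP_b41085_nt
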